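import Pool.Agent.helper77.PV.SpecB

/-!
# Project pv, row INB: block sums and reindexing
-/

set_option autoImplicit false

open scoped Matrix Topology
open Filter

namespace Pool.Agent.PV

open Pool.Agent.CZ

attribute [local instance] Matrix.linftyOpNormedRing Matrix.linftyOpNormedAlgebra

section lemmas

variable {A : Type} [NormedRing A] {ι κ : Type} [Fintype ι] [DecidableEq ι] [Fintype κ] [DecidableEq κ]

private theorem INB_nsub (f : κ ≃ ι) (M : Matrix ι ι A) : ‖M.submatrix f f‖ ≤ ‖M‖ := by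
  rw [Matrix.linfty_opNorm_def, Matrix.linfty_opNorm_def]
  rw [NNReal.coe_le_coe]
  refine Finset.sup_le fun i _ => ?_
  have h1 : ∑ j, ‖(M.submatrix f f) i j‖₊ = ∑ j, ‖M (f i) j‖₊ :=
    Equiv.sum_comp f (fun j => ‖M (f i) j‖₊)
  rw [h1]
  exact Finset.le_sup (f := fun i => ∑ j, ‖M i j‖₊) (Finset.mem_univ (f i))

private theorem INB_nblock (M : Matrix ι ι A) (M' : Matrix κ κ A) {r : ℝ} (h : ‖M‖ < r) (h' : ‖M'‖ < r) :
    ‖Matrix.fromBlocks M 0 0 M'‖ < r := by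
  have h0 : 0 < r := (norm_nonneg _).trans_lt h
  rw [Matrix.linfty_opNorm_def] at h h' ⊢
  lift r to NNReal using h0.le
  rw [NNReal.coe_lt_coe] at h h' ⊢
  have h0' : (⊥ : NNReal) < r := by
    rw [bot_eq_zero]
    exact_mod_cast h0
  rw [Finset.sup_lt_iff h0'] at h h' ⊢
  rintro (i | i) _
  · have := h i (Finset.mem_univ _)
    simpa [Fintype.sum_sum_type] using this
  · have := h' i (Finset.mem_univ _)
    simpa [Fintype.sum_sum_type] using this

private theorem INB_uz (u : Aˣ) (n : ℤ) :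
    ((uM ι u ^ n : (Matrix ι ι A)ˣ) : Matrix ι ι A) = Matrix.diagonal fun _ => ((u ^ n : Aˣ) : A) := by
  unfold uM
  rw [← map_zpow]
  rfl

private theorem INB_un (u : Aˣ) (n : ℕ) :
    ((uM ι u ^ n : (Matrix ι ι A)ˣ) : Matrix ι ι A) = Matrix.diagonal fun _ => ((u ^ n : Aˣ) : A) := by
  unfold uM
  rw [← map_pow]
  rfl

private theorem INB_u1 (u : Aˣ) :
    ((uM ι u : (Matrix ι ι A)ˣ) : Matrix ι ι A) = Matrix.diagonal fun _ => (u : A) := rfl

private theorem INB_unit [CompleteSpace A] (g : (Matrix ι ι A)ˣ) (Y : Matrix ι ι A)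
    (h : ‖1 - ((g⁻¹ : (Matrix ι ι A)ˣ) : Matrix ι ι A) * Y‖ < 1) : IsUnit Y := by
  have hcs : @CompleteSpace (Matrix ι ι A)
      (Matrix.linftyOpNormedRing (n := ι) (α := A)).toMetricSpace.toPseudoMetricSpace.toUniformSpace := by
    exact inferInstanceAs (CompleteSpace (ι → ι → A))
  have h1 := isUnit_one_sub_of_norm_lt_one h
  rw [sub_sub_cancel] at h1
  have h2 : Y = (g : Matrix ι ι A) * (((g⁻¹ : (Matrix ι ι A)ˣ) : Matrix ι ι A) * Y) := by
    rw [← mul_assoc, Units.mul_inv, one_mul]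
  rw [h2]
  exact g.isUnit.mul h1

end lemmas

private theorem INB_k0re (hK0E : K0E_stmt) {A : Type} [Ring A] {ι κ : Type} [Fintype ι] [Fintype κ] (f : κ ≃ ι)
    (e : Matrix ι ι A) (he : e * e = e) (h : e.submatrix f f * e.submatrix f f = e.submatrix f f) :
    k0 (e.submatrix f f) h = k0 e he := by
  classical
  refine hK0E A κ ι _ _ h he (e.submatrix f id) (e.submatrix id f) ?_ ?_
  · change e.submatrix f (Equiv.refl ι) * e.submatrix (Equiv.refl ι) f = _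
    rw [Matrix.submatrix_mul_equiv, he]
  · rw [Matrix.submatrix_mul_equiv e e id f id]
    rw [he]
    rfl

private theorem INB_k0c {A : Type} [Ring A] {ι : Type} [Fintype ι] {a b : Matrix ι ι A} (h : a = b)
    (ha : a * a = a) (hb : b * b = b) : k0 a ha = k0 b hb := by
  subst h
  rfl

/-- a datum with given `N`, `d` -/
private def INBd {B A : Type} [NormedRing B] [NormedAlgebra ℂ B] [NormedRing A] [NormedAlgebra ℂ A] (al : B ≃ₐ[ℂ] B)
    (io : B →ₐ[ℂ] A) (u : Aˣ) (c : ℤ → A →ₗ[ℂ] B) {ι : Type} [Fintype ι] [DecidableEq ι] (N d : ℕ)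
    (g : (Matrix ι ι A)ˣ) (z : K0 B) : Prop :=
  ∃ (x : ℕ → Matrix ι ι B) (L : (Matrix (Fin d × ι) (Fin d × ι) A)ˣ)
    (h : qL al c (bL d x) L * qL al c (bL d x) L = qL al c (bL d x) L), 1 ≤ d ∧ (∀ k, d < k → x k = 0) ∧
    ‖1 - ((g⁻¹ : (Matrix ι ι A)ˣ) : Matrix ι ι A) * (pX io u x d * ((uM ι u ^ (-(N : ℤ)) : (Matrix ι ι A)ˣ) : Matrix ι ι A))‖ < 1 ∧
    IsLin io u (aL d x) (bL d x) L ∧ z = k0 (qL al c (bL d x) L) h - (N * Fintype.card ι) • unitCls B

section steps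

variable {B A : Type} [NormedRing B] [NormedAlgebra ℂ B] [CompleteSpace B] [NormedRing A] [NormedAlgebra ℂ A]
  [CompleteSpace A] {al : B ≃ₐ[ℂ] B} {io : B →ₐ[ℂ] A} {u : Aˣ} {c : ℤ → A →ₗ[ℂ] B} {ι : Type} [Fintype ι]
  [DecidableEq ι] {N d : ℕ} {g : (Matrix ι ι A)ˣ} {z : K0 B}

private theorem INB_pad (hPAD : PAD_stmt) (hQDM : QDM_stmt) (hLFA : LFA_stmt) (hZ : ZPair al io u c)
    (h : INBd al io u c N d g z) : INBd al io u c N (d + 1) g z := by
  obtain ⟨x, L, hq, hd, hx, hn, hL, hz⟩ := h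
  have hp : pX io u x (d + 1) = pX io u x d := by
    unfold pX
    rw [Finset.sum_range_succ, hx (d + 1) (Nat.lt_succ_self d)]
    rw [Matrix.map_zero _ (map_zero io), zero_mul, add_zero]
  have hU := INB_unit g _ hn
  have hX : IsUnit (pX io u x (d + 1)) := by
    rw [hp]
    have h1 := hU.mul (uM ι u ^ (N : ℤ)).isUnit
    rwa [mul_assoc, ← Units.val_mul, ← zpow_add, neg_add_cancel, zpow_zero, Units.val_one, mul_one] at h1
  obtain ⟨X, hX⟩ := hX
  obtain ⟨L', hL', -⟩ := hLFA B A al io u c hZ ι (d + 1) x X (by omega) hX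
  have hq' := (hQDM B A al io u c hZ _ _ _ L' hL').qq
  refine ⟨x, L', hq', by omega, fun k hk => hx k (by omega), ?_, hL', ?_⟩
  · rw [hp]
    exact hn
  · rw [hz, hPAD B A al io u c hZ ι d x hd (hx _ (Nat.lt_succ_self d)) L L' hL hL' hq hq']

private theorem INB_shf (hSHF : SHF_stmt) (hQDM : QDM_stmt) (hLFA : LFA_stmt) (hZ : ZPair al io u c)
    (h : INBd al io u c N d g z) : INBd al io u c (N + 1) (d + 1) g z := by
  obtain ⟨x, L, hq, hd, hx, hn, hL, hz⟩ := h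
  have hp : pX io u (shx x) (d + 1) = pX io u x d * (uM ι u : Matrix ι ι A) := by
    unfold pX
    rw [Finset.sum_range_succ', Finset.sum_mul]
    have h0 : (shx x 0).map io * ((uM ι u ^ 0 : (Matrix ι ι A)ˣ) : Matrix ι ι A) = 0 := by
      change (0 : Matrix ι ι B).map io * _ = 0
      rw [Matrix.map_zero _ (map_zero io), zero_mul]
    rw [h0, add_zero]
    refine Finset.sum_congr rfl fun k _ => ?_
    rw [pow_succ, Units.val_mul, ← mul_assoc]
    rfl
  have hU := INB_unit g _ hn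
  have hXd : IsUnit (pX io u x d) := by
    have h1 := hU.mul (uM ι u ^ (N : ℤ)).isUnit
    rwa [mul_assoc, ← Units.val_mul, ← zpow_add, neg_add_cancel, zpow_zero, Units.val_one, mul_one] at h1
  have hX : IsUnit (pX io u (shx x) (d + 1)) := by
    rw [hp]
    exact hXd.mul (uM ι u).isUnit
  obtain ⟨X, hX⟩ := hX
  obtain ⟨L', hL', -⟩ := hLFA B A al io u c hZ ι (d + 1) (shx x) X (by omega) hX
  have hq' := (hQDM B A al io u c hZ _ _ _ L' hL').qq
  refine ⟨shx x, L', hq', by omega, fun k hk => ?_, ?_, hL', ?_⟩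
  · obtain ⟨k, rfl⟩ : ∃ j, k = j + 1 := ⟨k - 1, by omega⟩
    exact hx k (by omega)
  · have e : pX io u (shx x) (d + 1) * ((uM ι u ^ (-((N + 1 : ℕ) : ℤ)) : (Matrix ι ι A)ˣ) : Matrix ι ι A) =
        pX io u x d * ((uM ι u ^ (-(N : ℤ)) : (Matrix ι ι A)ˣ) : Matrix ι ι A) := by
      rw [hp, mul_assoc, ← Units.val_mul]
      congr 2
      rw [← zpow_one_add]
      congr 1
      push_cast
      ring
    rw [e]
    exact hn
  · rw [hz, hSHF B A al io u c hZ ι d x hd L L' hL hL' hq hq', add_mul, one_mul, add_smul]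
    abel

private theorem INB_pads (hPAD : PAD_stmt) (hQDM : QDM_stmt) (hLFA : LFA_stmt) (hZ : ZPair al io u c)
    (h : INBd al io u c N d g z) (j : ℕ) : INBd al io u c N (d + j) g z := by
  induction j with
  | zero => exact h
  | succ j ih => exact INB_pad hPAD hQDM hLFA hZ ih

private theorem INB_shfs (hSHF : SHF_stmt) (hQDM : QDM_stmt) (hLFA : LFA_stmt) (hZ : ZPair al io u c)
    (h : INBd al io u c N d g z) (j : ℕ) : INBd al io u c (N + j) (d + j) g z := by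
  induction j with
  | zero => exact h
  | succ j ih => exact INB_shf hSHF hQDM hLFA hZ ih

end steps

section blocks

variable {B A : Type} [NormedRing B] [NormedAlgebra ℂ B] [NormedRing A] [NormedAlgebra ℂ A]
  (io : B →ₐ[ℂ] A) (u : Aˣ) {ι κ : Type} [Fintype ι] [DecidableEq ι] [Fintype κ] [DecidableEq κ]

private theorem INB_map (a : Matrix ι ι B) (b : Matrix κ κ B) :
    (Matrix.fromBlocks a 0 0 b).map io = Matrix.fromBlocks (a.map io) 0 0 (b.map io) := by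
  rw [Matrix.fromBlocks_map, Matrix.map_zero _ (map_zero io), Matrix.map_zero _ (map_zero io)]

private theorem INB_uzb (n : ℤ) :
    ((uM (ι ⊕ κ) u ^ n : (Matrix (ι ⊕ κ) (ι ⊕ κ) A)ˣ) : Matrix (ι ⊕ κ) (ι ⊕ κ) A) =
      Matrix.fromBlocks ((uM ι u ^ n : (Matrix ι ι A)ˣ) : Matrix ι ι A) 0 0
        ((uM κ u ^ n : (Matrix κ κ A)ˣ) : Matrix κ κ A) := by
  rw [INB_uz, INB_uz, INB_uz, Matrix.fromBlocks_diagonal]
  congr 1
  funext i
  cases i <;> rfl

private theorem INB_pXb (x : ℕ → Matrix ι ι B) (y : ℕ → Matrix κ κ B) (d : ℕ) :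
    pX io u (fun k => Matrix.fromBlocks (x k) 0 0 (y k)) d =
      Matrix.fromBlocks (pX io u x d) 0 0 (pX io u y d) := by
  unfold pX
  induction d with
  | zero =>
    simp only [zero_add, Finset.sum_range_one, pow_zero, Units.val_one, mul_one]
    exact INB_map io _ _
  | succ d ih =>
    rw [Finset.sum_range_succ, ih, Finset.sum_range_succ _ (d + 1), Finset.sum_range_succ _ (d + 1), INB_map]
    have h := INB_uzb u (ι := ι) (κ := κ) ((d + 1 : ℕ) : ℤ)
    rw [zpow_natCast, zpow_natCast, zpow_natCast] at h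
    rw [h, Matrix.fromBlocks_multiply, Matrix.fromBlocks_add]
    simp only [Matrix.mul_zero, Matrix.zero_mul, add_zero, zero_add]

/-- the block diagonal unit -/
private def INB_bu (L : (Matrix ι ι A)ˣ) (L' : (Matrix κ κ A)ˣ) : (Matrix (ι ⊕ κ) (ι ⊕ κ) A)ˣ where
  val := Matrix.fromBlocks (L : Matrix ι ι A) 0 0 (L' : Matrix κ κ A)
  inv := Matrix.fromBlocks ((L⁻¹ : (Matrix ι ι A)ˣ) : Matrix ι ι A) 0 0 ((L'⁻¹ : (Matrix κ κ A)ˣ) : Matrix κ κ A)
  val_inv := by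
    rw [Matrix.fromBlocks_multiply]
    simp only [Units.mul_inv, Matrix.mul_zero, Matrix.zero_mul, add_zero, zero_add, Matrix.fromBlocks_one]
  inv_val := by
    rw [Matrix.fromBlocks_multiply]
    simp only [Units.inv_mul, Matrix.mul_zero, Matrix.zero_mul, add_zero, zero_add, Matrix.fromBlocks_one]

private theorem INB_inv (g : (Matrix ι ι A)ˣ) (h : (Matrix κ κ A)ˣ) (k : (Matrix (ι ⊕ κ) (ι ⊕ κ) A)ˣ)
    (hk : (k : Matrix (ι ⊕ κ) (ι ⊕ κ) A) = Matrix.fromBlocks (g : Matrix ι ι A) 0 0 (h : Matrix κ κ A)) :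
    ((k⁻¹ : (Matrix (ι ⊕ κ) (ι ⊕ κ) A)ˣ) : Matrix (ι ⊕ κ) (ι ⊕ κ) A) =
      Matrix.fromBlocks ((g⁻¹ : (Matrix ι ι A)ˣ) : Matrix ι ι A) 0 0 ((h⁻¹ : (Matrix κ κ A)ˣ) : Matrix κ κ A) := by
  have e : k = INB_bu g h := Units.ext hk
  rw [e]
  rfl

private theorem INB_aL (x : ℕ → Matrix ι ι B) (y : ℕ → Matrix κ κ B) (d : ℕ) :
    aL d (fun k => Matrix.fromBlocks (x k) 0 0 (y k)) =
      (Matrix.fromBlocks (aL d x) 0 0 (aL d y)).submatrix (Equiv.prodSumDistrib (Fin d) ι κ)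
        (Equiv.prodSumDistrib (Fin d) ι κ) := by
  ext ⟨i, p⟩ ⟨j, q⟩
  rcases p with p | p <;> rcases q with q | q <;>
    simp [aL, Equiv.prodSumDistrib]

private theorem INB_bL (x : ℕ → Matrix ι ι B) (y : ℕ → Matrix κ κ B) (d : ℕ) :
    bL d (fun k => Matrix.fromBlocks (x k) 0 0 (y k)) =
      (Matrix.fromBlocks (bL d x) 0 0 (bL d y)).submatrix (Equiv.prodSumDistrib (Fin d) ι κ)
        (Equiv.prodSumDistrib (Fin d) ι κ) := by
  ext ⟨i, p⟩ ⟨j, q⟩
  rcases p with p | p <;> rcases q with q | q <;>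
    simp [bL, Equiv.prodSumDistrib]

private theorem INB_rix (f : ι ≃ κ) (L : (Matrix ι ι A)ˣ) :
    ((rix f L : (Matrix κ κ A)ˣ) : Matrix κ κ A) = (L : Matrix ι ι A).submatrix f.symm f.symm := rfl

private theorem INB_rixi (f : ι ≃ κ) (L : (Matrix ι ι A)ˣ) :
    (((rix f L)⁻¹ : (Matrix κ κ A)ˣ) : Matrix κ κ A) = ((L⁻¹ : (Matrix ι ι A)ˣ) : Matrix ι ι A).submatrix f.symm f.symm := rfl

private theorem INB_us (f : κ ≃ ι) (n : ℤ) :
    ((uM κ u ^ n : (Matrix κ κ A)ˣ) : Matrix κ κ A) =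
      ((uM ι u ^ n : (Matrix ι ι A)ˣ) : Matrix ι ι A).submatrix f f := by
  rw [INB_uz, INB_uz, Matrix.submatrix_diagonal_equiv]
  rfl

private theorem INB_pXs (f : κ ≃ ι) (x : ℕ → Matrix ι ι B) (d : ℕ) :
    pX io u (fun k => (x k).submatrix f f) d = (pX io u x d).submatrix f f := by
  unfold pX
  have hk : ∀ k : ℕ, ((x k).submatrix f f).map io * ((uM κ u ^ k : (Matrix κ κ A)ˣ) : Matrix κ κ A) =
      ((x k).map io * ((uM ι u ^ k : (Matrix ι ι A)ˣ) : Matrix ι ι A)).submatrix f f := by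
    intro k
    have h := INB_us u f ((k : ℕ) : ℤ)
    rw [zpow_natCast, zpow_natCast] at h
    rw [h, ← Matrix.submatrix_mul_equiv _ _ f f f]
    rfl
  simp_rw [hk]
  induction d with
  | zero =>
    rw [zero_add, Finset.sum_range_one, Finset.sum_range_one]
  | succ d ih =>
    rw [Finset.sum_range_succ, ih, Finset.sum_range_succ _ (d + 1)]
    rfl

private theorem INB_lins {f : ι ≃ κ} {a b : Matrix ι ι B} {L : (Matrix ι ι A)ˣ} (h : IsLin io u a b L) :
    IsLin io u (a.submatrix f.symm f.symm) (b.submatrix f.symm f.symm) (rix f L) := by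
  unfold IsLin at h ⊢
  have h1 := INB_us u f.symm 1
  rw [zpow_one, zpow_one] at h1
  rw [INB_rix, h, h1]
  have h2 : (b.map io * (uM ι u : Matrix ι ι A)).submatrix f.symm f.symm =
      (b.submatrix f.symm f.symm).map io * ((uM ι u : Matrix ι ι A)).submatrix f.symm f.symm := by
    rw [← Matrix.submatrix_mul_equiv _ _ f.symm f.symm f.symm]
    rfl
  rw [← h2]
  rfl

private theorem INB_linb {a b : Matrix ι ι B} {L : (Matrix ι ι A)ˣ} (h : IsLin io u a b L)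
    {a' b' : Matrix κ κ B} {L' : (Matrix κ κ A)ˣ} (h' : IsLin io u a' b' L') :
    IsLin io u (Matrix.fromBlocks a 0 0 a') (Matrix.fromBlocks b 0 0 b') (INB_bu L L') := by
  unfold IsLin at h h' ⊢
  change Matrix.fromBlocks (L : Matrix ι ι A) 0 0 (L' : Matrix κ κ A) = _
  have h1 := INB_uzb u (ι := ι) (κ := κ) 1
  rw [zpow_one, zpow_one, zpow_one] at h1
  rw [h, h', h1, INB_map, INB_map, Matrix.fromBlocks_multiply, Matrix.fromBlocks_add]
  simp only [Matrix.mul_zero, Matrix.zero_mul, add_zero, zero_add]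

private theorem INB_diff (g : (Matrix ι ι A)ˣ) (h : (Matrix κ κ A)ˣ) (k : (Matrix (ι ⊕ κ) (ι ⊕ κ) A)ˣ)
    (hk : (k : Matrix (ι ⊕ κ) (ι ⊕ κ) A) = Matrix.fromBlocks (g : Matrix ι ι A) 0 0 (h : Matrix κ κ A))
    (x : ℕ → Matrix ι ι B) (y : ℕ → Matrix κ κ B) (d : ℕ) (n : ℤ) :
    1 - ((k⁻¹ : (Matrix (ι ⊕ κ) (ι ⊕ κ) A)ˣ) : Matrix (ι ⊕ κ) (ι ⊕ κ) A) *
      (pX io u (fun k => Matrix.fromBlocks (x k) 0 0 (y k)) d *
        ((uM (ι ⊕ κ) u ^ n : (Matrix (ι ⊕ κ) (ι ⊕ κ) A)ˣ) : Matrix (ι ⊕ κ) (ι ⊕ κ) A)) =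
    Matrix.fromBlocks (1 - ((g⁻¹ : (Matrix ι ι A)ˣ) : Matrix ι ι A) *
      (pX io u x d * ((uM ι u ^ n : (Matrix ι ι A)ˣ) : Matrix ι ι A))) 0 0
      (1 - ((h⁻¹ : (Matrix κ κ A)ˣ) : Matrix κ κ A) *
        (pX io u y d * ((uM κ u ^ n : (Matrix κ κ A)ˣ) : Matrix κ κ A))) := by
  rw [INB_pXb, INB_uzb, INB_inv g h k hk, Matrix.fromBlocks_multiply, Matrix.fromBlocks_multiply]
  simp only [Matrix.mul_zero, Matrix.zero_mul, add_zero, zero_add]
  rw [← Matrix.fromBlocks_one (l := ι) (m := κ), sub_eq_add_neg, Matrix.fromBlocks_neg, Matrix.fromBlocks_add]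
  simp only [neg_zero, add_zero, ← sub_eq_add_neg]

private theorem INB_diffs (f : κ ≃ ι) (g : (Matrix ι ι A)ˣ) (x : ℕ → Matrix ι ι B) (d : ℕ) (n : ℤ) :
    1 - (((rix f.symm g)⁻¹ : (Matrix κ κ A)ˣ) : Matrix κ κ A) *
      (pX io u (fun k => (x k).submatrix f f) d * ((uM κ u ^ n : (Matrix κ κ A)ˣ) : Matrix κ κ A)) =
    (1 - ((g⁻¹ : (Matrix ι ι A)ˣ) : Matrix ι ι A) *
      (pX io u x d * ((uM ι u ^ n : (Matrix ι ι A)ˣ) : Matrix ι ι A))).submatrix f f := by
  have h1 : (((rix f.symm g)⁻¹ : (Matrix κ κ A)ˣ) : Matrix κ κ A) =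
      ((g⁻¹ : (Matrix ι ι A)ˣ) : Matrix ι ι A).submatrix f f := rfl
  rw [h1, INB_pXs, INB_us u f, Matrix.submatrix_mul_equiv, Matrix.submatrix_mul_equiv]
  ext i j
  simp [Matrix.one_apply, f.injective.eq_iff]

end blocks

theorem INB (hINE : INE_stmt) (hINU : INU_stmt) (hPAD : PAD_stmt) (hSHF : SHF_stmt) (hQOP : QOP_stmt)
    (hQDM : QDM_stmt) (hK0B : K0B_stmt) (hK0E : K0E_stmt) (hLFA : LFA_stmt) : INB_stmt := by
  intro B A _ _ _ _ _ _ al io u c hZ ι κ _ _ _ _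
  refine ⟨fun g h k z w hk hg hh => ?_, fun f g z hg => ?_⟩
  · obtain ⟨N, d, hg⟩ := hg
    obtain ⟨N', d', hh⟩ := hh
    have hg' : INBd al io u c N d g z := hg
    have hh' : INBd al io u c N' d' h w := hh
    have hg2 := INB_pads hPAD hQDM hLFA hZ (INB_shfs hSHF hQDM hLFA hZ hg' N') (d' + N)
    have hh2 := INB_pads hPAD hQDM hLFA hZ (INB_shfs hSHF hQDM hLFA hZ hh' N) (d + N')
    have eN : N' + N = N + N' := by omega
    have ed : d' + N + (d + N') = d + N' + (d' + N) := by omega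
    rw [eN, ed] at hh2
    generalize N + N' = N₀ at hg2 hh2
    generalize d + N' + (d' + N) = d₀ at hg2 hh2
    obtain ⟨x, L, hq, hd, hx, hn, hL, hz⟩ := hg2
    obtain ⟨y, L', hq', -, hy, hn', hL', hz'⟩ := hh2
    set e := Equiv.prodSumDistrib (Fin d₀) ι κ with he
    have hlin := INB_lins io u (f := e.symm) (INB_linb io u hL hL')
    rw [Equiv.symm_symm, ← INB_aL, ← INB_bL] at hlin
    have hQ1 := (hQOP B A al io u c hZ _ _).1 (bL d₀ x) (bL d₀ y) L L' (INB_bu L L') rfl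
    have hQ2 := (hQOP B A al io u c hZ _ _).2.1 e.symm (Matrix.fromBlocks (bL d₀ x) 0 0 (bL d₀ y)) (INB_bu L L')
    rw [Equiv.symm_symm, ← INB_bL, hQ1] at hQ2
    have hqq := (hQDM B A al io u c hZ _ _ _ _ hlin).qq
    refine ⟨N₀, d₀, _, _, hqq, hd, fun j hj => ?_, ?_, hlin, ?_⟩
    · rw [hx j hj, hy j hj, Matrix.fromBlocks_zero]
    · rw [INB_diff io u g h k hk]
      exact INB_nblock _ _ hn hn'
    · have hb : Matrix.fromBlocks (qL al c (bL d₀ x) L) 0 0 (qL al c (bL d₀ y) L') *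
          Matrix.fromBlocks (qL al c (bL d₀ x) L) 0 0 (qL al c (bL d₀ y) L') =
          Matrix.fromBlocks (qL al c (bL d₀ x) L) 0 0 (qL al c (bL d₀ y) L') := by
        rw [Matrix.fromBlocks_multiply, hq, hq']
        simp only [Matrix.mul_zero, Matrix.zero_mul, add_zero, zero_add]
      have h1 := hK0B.1 B _ _ _ _ hq hq' hb
      have h2 := INB_k0re hK0E e _ hb (by rw [Matrix.submatrix_mul_equiv, hb])
      rw [INB_k0c hQ2 hqq (by rw [Matrix.submatrix_mul_equiv, hb]), h2, h1, hz, hz', Fintype.card_sum, mul_add, add_smul]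
      abel
  · obtain ⟨N, d, x, L, hq, hd, hx, hn, hL, hz⟩ := hg
    set e : Fin d × ι ≃ Fin d × κ := (Equiv.refl (Fin d)).prodCongr f with he
    have hlin := INB_lins io u (f := e) hL
    have ea : (aL d x).submatrix e.symm e.symm = aL d (fun k => (x k).submatrix f.symm f.symm) := by
      ext ⟨i, p⟩ ⟨j, q⟩
      simp [aL, he]
    have eb : (bL d x).submatrix e.symm e.symm = bL d (fun k => (x k).submatrix f.symm f.symm) := by
      ext ⟨i, p⟩ ⟨j, q⟩
      simp [bL, he]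
    have hQ := (hQOP B A al io u c hZ _ _).2.1 e (bL d x) L
    rw [ea, eb] at hlin
    rw [eb] at hQ
    have hqq := (hQDM B A al io u c hZ _ _ _ _ hlin).qq
    refine ⟨N, d, _, _, hqq, hd, fun j hj => ?_, ?_, hlin, ?_⟩
    · rw [hx j hj, Matrix.submatrix_zero]
      rfl
    · have h1 := INB_diffs io u f.symm g x d (-(N : ℤ))
      rw [Equiv.symm_symm] at h1
      rw [h1]
      exact (INB_nsub f.symm _).trans_lt hn
    · have hs : (qL al c (bL d x) L).submatrix e.symm e.symm * (qL al c (bL d x) L).submatrix e.symm e.symm =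
          (qL al c (bL d x) L).submatrix e.symm e.symm := by
        rw [Matrix.submatrix_mul_equiv, hq]
      rw [INB_k0c hQ hqq hs, INB_k0re hK0E e.symm _ hq hs, hz, Fintype.card_congr f]

end Pool.Agent.PV
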