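import Pool.Agent.helper77.PV.SpecK

set_option autoImplicit false

open scoped Matrix Topology
open Filter

namespace Pool.Agent.PV

open Pool.Agent.CZ Pool.Agent.PVH

/-- a `Finsupp` with values in `S` whose values are in the kernel comes from a `Finsupp` with values in the kernel -/
theorem KM0_lift {S T : Type} [AddCommGroup S] [AddCommGroup T] (χ : S →+ T) (y : ℤ →₀ S) (hy : ∀ k, χ (y k) = 0) :
    ∃ y' : ℤ →₀ ↥χ.ker, ∀ k, ((y' k : ↥χ.ker) : S) = y k := by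
  classical
  refine ⟨Finsupp.onFinset y.support (fun k => ⟨y k, hy k⟩) ?_, fun k => ?_⟩
  · intro k hk
    rw [Finsupp.mem_support_iff]
    intro h0
    exact hk (Subtype.ext h0)
  · rw [Finsupp.onFinset_apply]

theorem KM0_sum {S T G : Type} [AddCommGroup S] [AddCommGroup T] [AddCommGroup G] (χ : S →+ T) (y : ℤ →₀ S)
    (y' : ℤ →₀ ↥χ.ker) (h : ∀ k, ((y' k : ↥χ.ker) : S) = y k) (rm : ℤ → S →+ G) :
    (y'.sum fun k v => ((rm k).comp χ.ker.subtype) v) = y.sum fun k v => rm k v := by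
  classical
  have hs : y'.support = y.support := by
    ext k
    rw [Finsupp.mem_support_iff, Finsupp.mem_support_iff, ← h k]
    constructor
    · intro h1 h2
      exact h1 (Subtype.ext h2)
    · intro h1 h2
      rw [h2] at h1
      exact h1 rfl
  unfold Finsupp.sum
  rw [hs]
  refine Finset.sum_congr rfl fun k _ => ?_
  exact congrArg (rm k) (h k)

theorem KM0 (hMS0 : MS0_stmt) (hFUN : FUN_stmt) : KM0_stmt := by
  intro X₀ Y X _ _ _ _ _ _ α₀ α π e r hE y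
  have hF := hFUN.2.1
  obtain ⟨hms1, hms2⟩ := hMS0 ℤ C(X₀, ℂ) C(X, ℂ) C(Y, ℂ) (pbC ℂ π) e r (evC ℂ y) hE.ms
  refine ⟨fun x => ?_, fun k s => ?_, fun z => ?_, fun x y' h => ?_⟩
  · unfold k0a
    rw [← hF _ _ _ (pbC ℂ π).toRingHom (alC α : C(X, ℂ) →ₐ[ℂ] C(X, ℂ)).toRingHom,
      ← hF _ _ _ (alC α₀ : C(X₀, ℂ) →ₐ[ℂ] C(X₀, ℂ)).toRingHom (pbC ℂ π).toRingHom]
    have h2 : (alC α : C(X, ℂ) →ₐ[ℂ] C(X, ℂ)).toRingHom.comp (pbC ℂ π).toRingHom =
        (pbC ℂ π).toRingHom.comp (alC α₀ : C(X₀, ℂ) →ₐ[ℂ] C(X₀, ℂ)).toRingHom := by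
      ext f x
      show f (π (α.symm x)) = f (α₀.symm (π x))
      have h1 := hE.eqv (α.symm x)
      rw [α.apply_symm_apply] at h1
      rw [h1, α₀.symm_apply_apply]
    rw [h2]
  · unfold k0a
    show k0map (alC α : C(X, ℂ) →ₐ[ℂ] C(X, ℂ)).toRingHom (k0map (r k).toRingHom (s : K0 C(Y, ℂ))) =
      k0map (r (k - 1)).toRingHom (s : K0 C(Y, ℂ))
    rw [← hF _ _ _ (r k).toRingHom (alC α : C(X, ℂ) →ₐ[ℂ] C(X, ℂ)).toRingHom]
    have h2 : (alC α : C(X, ℂ) →ₐ[ℂ] C(X, ℂ)).toRingHom.comp (r k).toRingHom = (r (k - 1)).toRingHom := by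
      ext f x
      show (alC α (r k f)) x = (r (k - 1) f) x
      rw [hE.al]
    rw [h2]
  · obtain ⟨x, v, hv, hz⟩ := hms1 z
    obtain ⟨v', hv'⟩ := KM0_lift (k0map (evC ℂ y).toRingHom) v hv
    refine ⟨x, v', ?_⟩
    rw [hz]
    exact congrArg _ (KM0_sum (k0map (evC ℂ y).toRingHom) v v' hv' (fun k => k0map (r k).toRingHom)).symm
  · classical
    let v : ℤ →₀ K0 C(Y, ℂ) := y'.mapRange (fun s : ↥(k0map (evC ℂ y).toRingHom).ker => (s : K0 C(Y, ℂ))) rfl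
    have hv : ∀ k, ((y' k : ↥(k0map (evC ℂ y).toRingHom).ker) : K0 C(Y, ℂ)) = v k := fun k => by
      show _ = (y'.mapRange (fun s : ↥(k0map (evC ℂ y).toRingHom).ker => (s : K0 C(Y, ℂ))) rfl) k
      rw [Finsupp.mapRange_apply]
    have h3 := KM0_sum (k0map (evC ℂ y).toRingHom) v y' hv (fun k => k0map (r k).toRingHom)
    obtain ⟨h4, h5⟩ := hms2 x v (fun k => by rw [← hv k]; exact (y' k).2) (by
      rw [← h3]
      exact h)
    refine ⟨h4, ?_⟩
    ext k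
    rw [hv k, h5]
    rfl

end Pool.Agent.PV
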